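import Pool.Agent.Helper28.PL.Goals

set_option autoImplicit false

/-! Packet PL-P1 (MP_7cb822_co): a chord can be inserted into a face of a plane map. -/

namespace Helper50.PL

open Finset Equiv Helper28.VF Helper28.PL

section
variable {D : Type}

/-- the new rotation -/
noncomputable def sg (σ : Perm D) (a b : D) (hab : a ≠ b) : Perm (D ⊕ Bool) := by
  classical
  exact
  { toFun := Sum.elim (fun d => if σ d = a then Sum.inr false else if σ d = b then Sum.inr true
      else Sum.inl (σ d)) (fun c => if c then Sum.inl b else Sum.inl a)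
    invFun := Sum.elim (fun d => if d = a then Sum.inr false else if d = b then Sum.inr true
      else Sum.inl (σ.symm d)) (fun c => if c then Sum.inl (σ.symm b) else Sum.inl (σ.symm a))
    left_inv := by
      rintro (d | c)
      · simp only [Sum.elim_inl]
        by_cases h1 : σ d = a
        · subst h1; simp
        · by_cases h2 : σ d = b
          · subst h2; simp [h1]
          · simp [h1, h2]
      · cases c
        · simp
        · simp [hab.symm]
    right_inv := by
      rintro (d | c)
      · simp only [Sum.elim_inl]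
        by_cases h1 : d = a
        · simp [h1]
        · by_cases h2 : d = b
          · subst h2
            simp [h1]
          · simp [h1, h2]
      · cases c
        · simp
        · simp [hab.symm] }

lemma sg_a {σ : Perm D} {a b : D} {hab : a ≠ b} {d : D} (h : σ d = a) :
    sg σ a b hab (Sum.inl d) = Sum.inr false := by
  simp [sg, h]

lemma sg_b {σ : Perm D} {a b : D} {hab : a ≠ b} {d : D} (h : σ d = b) :
    sg σ a b hab (Sum.inl d) = Sum.inr true := by
  have h1 : σ d ≠ a := by rw [h]; exact hab.symm
  simp [sg, h, hab.symm]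

lemma sg_o {σ : Perm D} {a b : D} {hab : a ≠ b} {d : D} (h1 : σ d ≠ a) (h2 : σ d ≠ b) :
    sg σ a b hab (Sum.inl d) = Sum.inl (σ d) := by
  simp [sg, h1, h2]

lemma sg_f {σ : Perm D} {a b : D} {hab : a ≠ b} :
    sg σ a b hab (Sum.inr false) = Sum.inl a := by
  simp [sg]

lemma sg_t {σ : Perm D} {a b : D} {hab : a ≠ b} :
    sg σ a b hab (Sum.inr true) = Sum.inl b := by
  simp [sg]

/-- the new involution -/
def al (α : Perm D) (hα : ∀ d, α (α d) = d) : Perm (D ⊕ Bool) where
  toFun := Sum.elim (fun d => Sum.inl (α d)) (fun c => Sum.inr (!c))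
  invFun := Sum.elim (fun d => Sum.inl (α d)) (fun c => Sum.inr (!c))
  left_inv := by rintro (d | c) <;> simp [hα]
  right_inv := by rintro (d | c) <;> simp [hα]

lemma sc_step {X : Type} {π : Perm X} (x : X) : π.SameCycle x (π x) := ⟨1, by simp⟩

end

theorem stmtChord : StmtChord := by
  intro D V E F _ _ _ _ M a b hab hfc
  classical
  set σ' := sg M.σ a b hab with hσ'
  set α' := al M.α M.α_inv with hα'
  have hαl : ∀ d, α' (Sum.inl d) = Sum.inl (M.α d) := fun d => rfl
  have hαf : α' (Sum.inr false) = Sum.inr true := rfl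
  have hαt : α' (Sum.inr true) = Sum.inr false := rfl
  -- face permutations
  set p : Perm D := M.σ * M.α with hp
  set p' : Perm (D ⊕ Bool) := σ' * α' with hp'
  have hpd : ∀ d, p d = M.σ (M.α d) := fun d => rfl
  have pa : ∀ d, p d = a → p' (Sum.inl d) = Sum.inr false := fun d h => sg_a (hab := hab) h
  have pb : ∀ d, p d = b → p' (Sum.inl d) = Sum.inr true := fun d h => sg_b (hab := hab) h
  have po : ∀ d, p d ≠ a → p d ≠ b → p' (Sum.inl d) = Sum.inl (p d) := fun d h1 h2 => sg_o (hab := hab) h1 h2
  have pf : p' (Sum.inr false) = Sum.inl b := sg_t (σ := M.σ) (hab := hab)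
  have pt : p' (Sum.inr true) = Sum.inl a := sg_f (σ := M.σ) (hab := hab)
  have hfcp : ∀ d, M.fc (p d) = M.fc d := fun d => ((M.fc_iff d (p d)).2 (sc_step d)).symm
  have hfcn : ∀ (n : ℕ) d, M.fc ((p ^ n) d) = M.fc d := by
    intro n
    induction n with
    | zero => intro d; simp
    | succ n ih => intro d; rw [pow_succ', Perm.mul_apply, hfcp, ih]
  have natpow : ∀ x y : D, M.fc x = M.fc y → ∃ n : ℕ, (p ^ n) x = y := by
    intro x y h
    exact ((M.fc_iff x y).1 h).exists_nat_pow_eq
  -- least exponents
  have hk := natpow a b hfc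
  have hm := natpow b a hfc.symm
  set k := Nat.find hk with hkdef
  set m := Nat.find hm with hmdef
  have kspec : (p ^ k) a = b := Nat.find_spec hk
  have mspec : (p ^ m) b = a := Nat.find_spec hm
  have kmin : ∀ i, i < k → (p ^ i) a ≠ b := fun i hi => Nat.find_min hk hi
  have mmin : ∀ i, i < m → (p ^ i) b ≠ a := fun i hi => Nat.find_min hm hi
  have kpos : 1 ≤ k := by
    by_contra hc
    have : k = 0 := by omega
    rw [this] at kspec
    exact hab (by simpa using kspec)
  have mpos : 1 ≤ m := by
    by_contra hc
    have : m = 0 := by omega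
    rw [this] at mspec
    exact hab (by simpa using mspec.symm)
  have psucc : ∀ (n : ℕ) x, p ((p ^ n) x) = (p ^ (n + 1)) x := by
    intro n x; rw [pow_succ']; rfl
  have padd : ∀ (n l : ℕ) x, (p ^ n) ((p ^ l) x) = (p ^ (n + l)) x := by
    intro n l x; rw [pow_add]; rfl
  have ka : ∀ i, 1 ≤ i → i ≤ k → (p ^ i) a ≠ a := by
    intro i hi hik h
    have h2 : (p ^ (k - i)) a = b := by
      have h3 : (p ^ (k - i)) ((p ^ i) a) = b := by
        rw [padd, show k - i + i = k by omega]; exact kspec
      rwa [h] at h3
    exact kmin (k - i) (by omega) h2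
  have mb : ∀ i, 1 ≤ i → i ≤ m → (p ^ i) b ≠ b := by
    intro i hi hik h
    have h2 : (p ^ (m - i)) b = a := by
      have h3 : (p ^ (m - i)) ((p ^ i) b) = a := by
        rw [padd, show m - i + i = m by omega]; exact mspec
      rwa [h] at h3
    exact mmin (m - i) (by omega) h2
  -- the arc A
  set A : D → Prop := fun d => ∃ i, i < k ∧ (p ^ i) a = d with hA
  have aA : A a := ⟨0, by omega, by simp⟩
  have bA : ¬ A b := by rintro ⟨i, hi, h⟩; exact kmin i hi h
  have A1 : ∀ d, p d = a → ¬ A d := by
    rintro d h ⟨i, hi, rfl⟩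
    rw [psucc] at h
    exact ka (i + 1) (by omega) (by omega) h
  have A2 : ∀ d, p d = b → A d := by
    intro d h
    refine ⟨k - 1, by omega, ?_⟩
    apply p.injective
    rw [psucc, h, show k - 1 + 1 = k by omega, kspec]
  have A3 : ∀ d, p d ≠ a → p d ≠ b → (A (p d) ↔ A d) := by
    intro d h1 h2
    constructor
    · rintro ⟨i, hi, h⟩
      rcases Nat.eq_zero_or_pos i with h0 | h0
      · subst h0; exact absurd (by simpa using h.symm) h1
      · refine ⟨i - 1, by omega, ?_⟩
        apply p.injective
        rw [psucc, show i - 1 + 1 = i by omega, h]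
    · rintro ⟨i, hi, rfl⟩
      rw [psucc] at h1 h2 ⊢
      refine ⟨i + 1, ?_, rfl⟩
      rcases Nat.lt_or_ge (i + 1) k with h' | h'
      · exact h'
      · have : i + 1 = k := by omega
        rw [this] at h2
        exact absurd kspec h2
  have afc : ∀ d, A d → M.fc d = M.fc a := by
    rintro d ⟨i, -, rfl⟩; exact hfcn i a
  -- dichotomy on the face
  have dich : ∀ d, M.fc d = M.fc a → A d ∨ ∃ j, j < m ∧ (p ^ j) b = d := by
    intro d h
    obtain ⟨n, rfl⟩ := natpow a d h.symm
    clear h
    induction n with
    | zero => left; simpa using aA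
    | succ n ih =>
      rcases ih with ⟨i, hi, h⟩ | ⟨j, hj, h⟩
      · rw [← psucc, ← h, psucc]
        rcases Nat.lt_or_ge (i + 1) k with h' | h'
        · exact Or.inl ⟨i + 1, h', rfl⟩
        · have : i + 1 = k := by omega
          rw [this, kspec]
          exact Or.inr ⟨0, by omega, by simp⟩
      · rw [← psucc, ← h, psucc]
        rcases Nat.lt_or_ge (j + 1) m with h' | h'
        · exact Or.inr ⟨j + 1, h', rfl⟩
        · have : j + 1 = m := by omega
          rw [this, mspec]
          exact Or.inl aA
  -- the vertex and face maps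
  set vt' : D ⊕ Bool → V := Sum.elim M.vt (fun c => if c then M.vt b else M.vt a) with hvt'
  set ed' : D ⊕ Bool → Option E := Sum.elim (fun d => some (M.ed d)) (fun _ => none) with hed'
  set fc' : D ⊕ Bool → Option F := Sum.elim (fun d => if A d then none else some (M.fc d))
    (fun c => if c then none else some (M.fc a)) with hfc'
  have hvtσ : ∀ d, M.vt (M.σ d) = M.vt d := fun d => ((M.vt_iff d (M.σ d)).2 (sc_step d)).symm
  -- invariance of vt'
  have vinv : ∀ x, vt' (σ' x) = vt' x := by
    rintro (d | c)
    · by_cases h1 : M.σ d = a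
      · rw [hσ', sg_a h1]
        simp only [hvt', Sum.elim_inr, Sum.elim_inl]
        rw [← hvtσ d, h1]; simp
      · by_cases h2 : M.σ d = b
        · rw [hσ', sg_b h2]
          simp only [hvt', Sum.elim_inr, Sum.elim_inl]
          rw [← hvtσ d, h2]; simp
        · rw [hσ', sg_o h1 h2]
          simp only [hvt', Sum.elim_inl]
          exact hvtσ d
    · cases c
      · rw [hσ', sg_f (σ := M.σ) (hab := hab)]; simp [hvt']
      · rw [hσ', sg_t (σ := M.σ) (hab := hab)]; simp [hvt']
  have finv : ∀ x, fc' (p' x) = fc' x := by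
    rintro (d | c)
    · by_cases h1 : p d = a
      · rw [pa d h1]
        simp only [hfc', Sum.elim_inr, Sum.elim_inl]
        rw [if_neg (A1 d h1)]
        have := hfcp d
        rw [h1] at this
        simp [this]
      · by_cases h2 : p d = b
        · rw [pb d h2]
          simp only [hfc', Sum.elim_inr, Sum.elim_inl]
          rw [if_pos (A2 d h2)]
          simp
        · rw [po d h1 h2]
          simp only [hfc', Sum.elim_inl]
          rw [hfcp]
          by_cases h3 : A d
          · rw [if_pos h3, if_pos ((A3 d h1 h2).2 h3)]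
          · rw [if_neg h3, if_neg (fun h => h3 ((A3 d h1 h2).1 h))]
    · cases c
      · rw [pf]
        simp only [hfc', Sum.elim_inr, Sum.elim_inl]
        rw [if_neg bA]; simp [hfc]
      · rw [pt]
        simp only [hfc', Sum.elim_inr, Sum.elim_inl]
        rw [if_pos aA]; simp
  have inv_sc : ∀ {Y : Type} (π : Perm (D ⊕ Bool)) (f : D ⊕ Bool → Y), (∀ x, f (π x) = f x) →
      ∀ x y, π.SameCycle x y → f x = f y := by
    intro Y π f hf x y h
    obtain ⟨n, rfl⟩ := h.exists_nat_pow_eq
    clear h
    induction n with
    | zero => simp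
    | succ n ih => rw [pow_succ', Perm.mul_apply, hf]; exact ih
  -- σ'-cycles
  have vstep : ∀ d, σ'.SameCycle (Sum.inl d) (Sum.inl (M.σ d)) := by
    intro d
    by_cases h1 : M.σ d = a
    · have e1 : σ' (Sum.inl d) = Sum.inr false := sg_a (hab := hab) h1
      have e2 : σ' (Sum.inr false) = Sum.inl a := sg_f (σ := M.σ) (hab := hab)
      have s1 := sc_step (π := σ') (Sum.inl d)
      have s2 := sc_step (π := σ') (Sum.inr false : D ⊕ Bool)
      rw [e1] at s1
      rw [e2] at s2
      rw [h1]; exact s1.trans s2
    · by_cases h2 : M.σ d = b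
      · have e1 : σ' (Sum.inl d) = Sum.inr true := sg_b (hab := hab) h2
        have e2 : σ' (Sum.inr true) = Sum.inl b := sg_t (σ := M.σ) (hab := hab)
        have s1 := sc_step (π := σ') (Sum.inl d)
        have s2 := sc_step (π := σ') (Sum.inr true : D ⊕ Bool)
        rw [e1] at s1
        rw [e2] at s2
        rw [h2]; exact s1.trans s2
      · have e1 : σ' (Sum.inl d) = Sum.inl (M.σ d) := sg_o (hab := hab) h1 h2
        have s1 := sc_step (π := σ') (Sum.inl d)
        rwa [e1] at s1
  have vcyc : ∀ d e, M.σ.SameCycle d e → σ'.SameCycle (Sum.inl d) (Sum.inl e) := by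
    intro d e h
    obtain ⟨n, rfl⟩ := h.exists_nat_pow_eq
    clear h
    induction n with
    | zero => simpa using Perm.SameCycle.refl _ _
    | succ n ih =>
      rw [pow_succ', Perm.mul_apply]
      exact ih.trans (vstep _)
  have vrep : ∀ x : D ⊕ Bool, ∃ d, σ'.SameCycle x (Sum.inl d) ∧ vt' x = M.vt d := by
    rintro (d | c)
    · exact ⟨d, Perm.SameCycle.refl _ _, rfl⟩
    · cases c
      · refine ⟨a, ?_, by simp [hvt']⟩
        have e2 : σ' (Sum.inr false) = Sum.inl a := sg_f (σ := M.σ) (hab := hab)
        have s2 := sc_step (π := σ') (Sum.inr false : D ⊕ Bool)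
        rwa [e2] at s2
      · refine ⟨b, ?_, by simp [hvt']⟩
        have e2 : σ' (Sum.inr true) = Sum.inl b := sg_t (σ := M.σ) (hab := hab)
        have s2 := sc_step (π := σ') (Sum.inr true : D ⊕ Bool)
        rwa [e2] at s2
  -- φ'-cycles
  have s_t : p'.SameCycle (Sum.inr true) (Sum.inl a) := by
    have := sc_step (π := p') (Sum.inr true : D ⊕ Bool)
    rwa [pt] at this
  have s_f : p'.SameCycle (Sum.inr false) (Sum.inl b) := by
    have := sc_step (π := p') (Sum.inr false : D ⊕ Bool)
    rwa [pf] at this
  have ostep : ∀ d, p d ≠ a → p d ≠ b → p'.SameCycle (Sum.inl d) (Sum.inl (p d)) := by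
    intro d h1 h2
    have := sc_step (π := p') (Sum.inl d : D ⊕ Bool)
    rwa [po d h1 h2] at this
  have arcA : ∀ i, i < k → p'.SameCycle (Sum.inl a) (Sum.inl ((p ^ i) a)) := by
    intro i
    induction i with
    | zero => intro _; simpa using Perm.SameCycle.refl _ _
    | succ i ih =>
      intro hi
      have h1 := ih (by omega)
      refine h1.trans ?_
      rw [← psucc]
      apply ostep
      · rw [psucc]; exact ka (i + 1) (by omega) (by omega)
      · rw [psucc]; exact kmin (i + 1) hi
  have arcB : ∀ i, i < m → p'.SameCycle (Sum.inl b) (Sum.inl ((p ^ i) b)) := by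
    intro i
    induction i with
    | zero => intro _; simpa using Perm.SameCycle.refl _ _
    | succ i ih =>
      intro hi
      have h1 := ih (by omega)
      refine h1.trans ?_
      rw [← psucc]
      apply ostep
      · rw [psucc]; exact mmin (i + 1) hi
      · rw [psucc]; exact mb (i + 1) (by omega) (by omega)
  have other : ∀ (n : ℕ) d, M.fc d ≠ M.fc a →
      p'.SameCycle (Sum.inl d) (Sum.inl ((p ^ n) d)) := by
    intro n d hd
    induction n with
    | zero => simpa using Perm.SameCycle.refl _ _
    | succ n ih =>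
      refine ih.trans ?_
      rw [← psucc]
      have hh : M.fc (p ((p ^ n) d)) = M.fc d := by rw [hfcp, hfcn]
      apply ostep
      · intro h; rw [h] at hh; exact hd hh.symm
      · intro h; rw [h] at hh; exact hd (hh.symm.trans hfc.symm)
  -- classes
  have clsN : ∀ x, fc' x = none → p'.SameCycle x (Sum.inl a) := by
    rintro (d | c) h
    · simp only [hfc', Sum.elim_inl] at h
      by_cases hd : A d
      · obtain ⟨i, hi, rfl⟩ := hd
        exact (arcA i hi).symm
      · rw [if_neg hd] at h; exact absurd h (by simp)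
    · cases c
      · simp [hfc'] at h
      · exact s_t
  have clsA : ∀ x, fc' x = some (M.fc a) → p'.SameCycle x (Sum.inl b) := by
    rintro (d | c) h
    · simp only [hfc', Sum.elim_inl] at h
      by_cases hd : A d
      · rw [if_pos hd] at h; exact absurd h (by simp)
      · rw [if_neg hd] at h
        have h' : M.fc d = M.fc a := by simpa using h
        rcases dich d h' with h1 | ⟨j, hj, rfl⟩
        · exact absurd h1 hd
        · exact (arcB j hj).symm
    · cases c
      · exact s_f
      · simp [hfc'] at h
  have clsO : ∀ x f, fc' x = some f → f ≠ M.fc a → ∃ d, x = Sum.inl d ∧ M.fc d = f := by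
    rintro (d | c) f h hf
    · simp only [hfc', Sum.elim_inl] at h
      by_cases hd : A d
      · rw [if_pos hd] at h; exact absurd h (by simp)
      · rw [if_neg hd] at h
        exact ⟨d, rfl, by simpa using h⟩
    · cases c
      · simp only [hfc', Sum.elim_inr] at h
        exact absurd (by simpa using h.symm) hf
      · simp [hfc'] at h
  refine ⟨{ σ := σ', α := α', vt := vt', ed := ed', fc := fc', α_inv := ?_, α_ne := ?_,
            vt_iff := ?_, ed_iff := ?_, fc_iff := ?_, vt_surj := ?_, ed_surj := ?_, fc_surj := ?_,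
            conn := ?_, euler := ?_ }, fun d => rfl, fun d => rfl, ?_, ?_, rfl, rfl⟩
  · rintro (d | c)
    · rw [hαl, hαl, M.α_inv]
    · cases c <;> rfl
  · rintro (d | c)
    · rw [hαl]; intro h; exact M.α_ne d (Sum.inl_injective h)
    · cases c
      · rw [hαf]; simp
      · rw [hαt]; simp
  · intro x y
    constructor
    · intro h
      obtain ⟨d, h1, h2⟩ := vrep x
      obtain ⟨e, h3, h4⟩ := vrep y
      have : M.vt d = M.vt e := by rw [← h2, ← h4, h]
      exact (h1.trans (vcyc d e ((M.vt_iff d e).1 this))).trans h3.symm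
    · exact inv_sc σ' vt' vinv x y
  · rintro (d | c) (e | c')
    · rw [hαl]
      simp only [hed', Sum.elim_inl, Option.some.injEq, Sum.inl.injEq]
      exact M.ed_iff d e
    · rw [hαl]; simp [hed']
    · cases c <;> simp [hed', hαf, hαt]
    · cases c <;> cases c' <;> simp [hed', hαf, hαt]
  · intro x y
    constructor
    · intro h
      rcases hx : fc' x with _ | f
      · exact (clsN x hx).trans (clsN y (by rw [← h, hx])).symm
      · by_cases hf : f = M.fc a
        · subst hf
          exact (clsA x hx).trans (clsA y (by rw [← h, hx])).symm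
        · obtain ⟨d, rfl, hd⟩ := clsO x f hx hf
          obtain ⟨e, rfl, he⟩ := clsO y f (by rw [← h, hx]) hf
          obtain ⟨n, rfl⟩ := natpow d e (by rw [hd, he])
          exact other n d (by rw [hd]; exact hf)
    · exact inv_sc p' fc' finv x y
  · intro v
    obtain ⟨d, rfl⟩ := M.vt_surj v
    exact ⟨Sum.inl d, rfl⟩
  · rintro (_ | e)
    · exact ⟨Sum.inr true, rfl⟩
    · obtain ⟨d, rfl⟩ := M.ed_surj e
      exact ⟨Sum.inl d, rfl⟩
  · rintro (_ | f)
    · exact ⟨Sum.inr true, by simp [hfc']⟩
    · by_cases hf : f = M.fc a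
      · exact ⟨Sum.inr false, by simp [hfc', hf]⟩
      · obtain ⟨d, rfl⟩ := M.fc_surj f
        refine ⟨Sum.inl d, ?_⟩
        simp only [hfc', Sum.elim_inl]
        rw [if_neg (fun h => hf (afc d h))]
  · intro P hne hPσ hPα
    have q1 : ∀ d, P (Sum.inl d) → P (Sum.inl (M.σ d)) := by
      intro d h
      by_cases h1 : M.σ d = a
      · have e1 : σ' (Sum.inl d) = Sum.inr false := sg_a (hab := hab) h1
        have e2 : σ' (Sum.inr false) = Sum.inl a := sg_f (σ := M.σ) (hab := hab)
        have := hPσ _ (hPσ _ h)
        rw [e1, e2] at this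
        rwa [h1]
      · by_cases h2 : M.σ d = b
        · have e1 : σ' (Sum.inl d) = Sum.inr true := sg_b (hab := hab) h2
          have e2 : σ' (Sum.inr true) = Sum.inl b := sg_t (σ := M.σ) (hab := hab)
          have := hPσ _ (hPσ _ h)
          rw [e1, e2] at this
          rwa [h2]
        · have e1 : σ' (Sum.inl d) = Sum.inl (M.σ d) := sg_o (hab := hab) h1 h2
          have := hPσ _ h
          rwa [e1] at this
    have q2 : ∀ d, P (Sum.inl d) → P (Sum.inl (M.α d)) := by
      intro d h
      have := hPα _ h
      rwa [hαl] at this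
    have q0 : ∃ d, P (Sum.inl d) := by
      obtain ⟨(d | c), h⟩ := hne
      · exact ⟨d, h⟩
      · cases c
        · have e2 : σ' (Sum.inr false) = Sum.inl a := sg_f (σ := M.σ) (hab := hab)
          have := hPσ _ h
          rw [e2] at this
          exact ⟨a, this⟩
        · have e2 : σ' (Sum.inr true) = Sum.inl b := sg_t (σ := M.σ) (hab := hab)
          have := hPσ _ h
          rw [e2] at this
          exact ⟨b, this⟩
    have q := M.conn (fun d => P (Sum.inl d)) q0 q1 q2
    rintro (d | c)
    · exact q d
    · cases c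
      · have e1 : σ' (Sum.inl (M.σ.symm a)) = Sum.inr false := sg_a (hab := hab) (by simp)
        have := hPσ _ (q (M.σ.symm a))
        rwa [e1] at this
      · have e1 : σ' (Sum.inl (M.σ.symm b)) = Sum.inr true := sg_b (hab := hab) (by simp)
        have := hPσ _ (q (M.σ.symm b))
        rwa [e1] at this
  · have := M.euler
    simp only [Fintype.card_option]
    omega
  · simp [hvt']
  · simp [hvt']

end Helper50.PL
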