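import Pool.Agent.Helper82.PL.Defs

/-!
# Passing to the limit in the weak formulation

Packet Pass for the counterexample to the ratio limit property (MP_8d56bc_an).
-/

set_option autoImplicit false

open MeasureTheory Set Filter Topology

namespace Pool.Agent.Helper50.PL

open Pool.Agent.Helper82.PL

/-! ### Abstract convergence of integrals -/

/-- Convergence of integrals when the difference is controlled by a small multiple of a fixed
integrable function and a large multiple of functions whose integral tends to `0`. -/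
lemma tendsto_int {α : Type*} [MeasurableSpace α] {μ : Measure α} {E : Type*}
    [NormedAddCommGroup E] [NormedSpace ℝ E] {F : ℕ → α → E} {f : α → E} {h : α → ℝ}
    {d : ℕ → α → ℝ} (hf : Integrable f μ) (hF : ∀ n, AEStronglyMeasurable (F n) μ)
    (hh : Integrable h μ) (hd : ∀ n, Integrable (d n) μ)
    (hd0 : Tendsto (fun n => ∫ x, d n x ∂μ) atTop (𝓝 0))
    (hb : ∀ ε : ℝ, 0 < ε → ∃ C : ℝ, ∀ᶠ n in atTop, ∀ᵐ x ∂μ, ‖F n x - f x‖ ≤ ε * h x + C * d n x) :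
    Tendsto (fun n => ∫ x, F n x ∂μ) atTop (𝓝 (∫ x, f x ∂μ)) := by
  rw [tendsto_iff_norm_sub_tendsto_zero, Metric.tendsto_atTop']
  intro ε hε
  set H := ∫ x, h x ∂μ with hH
  have hpos : 0 < 2 * (|H| + 1) := by positivity
  obtain ⟨C, hC⟩ := hb (ε / (2 * (|H| + 1))) (by positivity)
  have h1 : ∀ᶠ n in atTop, C * ∫ x, d n x ∂μ < ε / 2 := by
    have h2 : Tendsto (fun n => C * ∫ x, d n x ∂μ) atTop (𝓝 (C * 0)) := hd0.const_mul C
    rw [mul_zero] at h2
    exact h2.eventually (gt_mem_nhds (by positivity))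
  obtain ⟨N, hN⟩ := eventually_atTop.1 (hC.and h1)
  refine ⟨N, fun n hn => ?_⟩
  obtain ⟨h2, h3⟩ := hN n hn.le
  have hint : Integrable (fun x => ε / (2 * (|H| + 1)) * h x + C * d n x) μ :=
    (hh.const_mul _).add ((hd n).const_mul _)
  have hsub : Integrable (fun x => F n x - f x) μ :=
    hint.mono' ((hF n).sub hf.aestronglyMeasurable) h2
  have hFn : Integrable (F n) μ := by
    have := hsub.add hf
    refine this.congr (ae_of_all _ fun x => ?_)
    simp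
  rw [Real.dist_eq, sub_zero, abs_norm, ← integral_sub hFn hf]
  calc ‖∫ x, (F n x - f x) ∂μ‖ ≤ ∫ x, ‖F n x - f x‖ ∂μ := norm_integral_le_integral_norm _
    _ ≤ ∫ x, (ε / (2 * (|H| + 1)) * h x + C * d n x) ∂μ := integral_mono_ae hsub.norm hint h2
    _ = ε / (2 * (|H| + 1)) * H + C * ∫ x, d n x ∂μ := by
        rw [integral_add (hh.const_mul _) ((hd n).const_mul _), integral_const_mul,
          integral_const_mul]
    _ < ε := by
        have h4 : ε / (2 * (|H| + 1)) * H ≤ ε / 2 := by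
          calc ε / (2 * (|H| + 1)) * H ≤ ε / (2 * (|H| + 1)) * (|H| + 1) := by
                apply mul_le_mul_of_nonneg_left _ (by positivity)
                have := le_abs_self H
                linarith
            _ = ε / 2 := by field_simp
        linarith

/-! ### Scalar and vector inequalities -/

lemma young (ε : ℝ) (hε : 0 < ε) : ∃ C : ℝ, 0 ≤ C ∧ ∀ B d : ℝ, 0 ≤ B → 0 ≤ d →
    d ≤ ε + C * d ^ 4 ∧ (9 / 2) * B ^ 2 * d + (5 / 2) * d ^ 3 ≤ ε * (B ^ 4 + 1) + C * d ^ 4 := by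
  -- `δ` small
  obtain ⟨δ, hδ0, hδ1, hδε⟩ : ∃ δ : ℝ, 0 < δ ∧ δ ≤ 1 ∧ 7 * δ ≤ ε := by
    refine ⟨min 1 (ε / 7), by positivity, min_le_left _ _, ?_⟩
    have := min_le_right 1 (ε / 7)
    linarith
  refine ⟨(9 / 2) / δ ^ 3 + (5 / 2) / δ, by positivity, fun B d hB hd => ?_⟩
  have hC : 0 ≤ (9 / 2) / δ ^ 3 + (5 / 2) / δ := by positivity
  have hd4 : 0 ≤ d ^ 4 := by positivity
  by_cases hdδ : d ≤ δ
  · have h0 : 0 ≤ ((9 / 2) / δ ^ 3 + (5 / 2) / δ) * d ^ 4 := by positivity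
    constructor
    · linarith
    · have h1 : B ^ 2 * d ≤ B ^ 2 * δ := mul_le_mul_of_nonneg_left hdδ (by positivity)
      have h2 : B ^ 2 ≤ B ^ 4 + 1 := by nlinarith [sq_nonneg (B ^ 2 - 1)]
      have h3 : B ^ 2 * δ ≤ (B ^ 4 + 1) * δ := mul_le_mul_of_nonneg_right h2 hδ0.le
      have h4 : d ^ 3 ≤ δ := by
        have : d ^ 3 ≤ δ ^ 3 := pow_le_pow_left₀ hd hdδ 3
        have h5 : δ ^ 3 ≤ δ := by
          have : δ ^ 3 ≤ δ ^ 1 := pow_le_pow_of_le_one hδ0.le hδ1 (by norm_num)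
          simpa using this
        linarith
      have h5 : δ ≤ (B ^ 4 + 1) * δ := by
        have : 0 ≤ B ^ 4 * δ := by positivity
        linarith
      have h6 : 7 * δ * (B ^ 4 + 1) ≤ ε * (B ^ 4 + 1) :=
        mul_le_mul_of_nonneg_right hδε (by positivity)
      linarith
  · have hdδ' : δ < d := not_le.1 hdδ
    have h3 : d ^ 3 ≤ d ^ 4 / δ := by
      rw [le_div_iff₀ hδ0]
      have : d ^ 3 * δ ≤ d ^ 3 * d := mul_le_mul_of_nonneg_left hdδ'.le (by positivity)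
      linarith [show d ^ 3 * d = d ^ 4 by ring]
    have h1 : d ≤ d ^ 4 / δ ^ 3 := by
      rw [le_div_iff₀ (by positivity)]
      have h4 : δ ^ 3 ≤ d ^ 3 := pow_le_pow_left₀ hδ0.le hdδ'.le 3
      calc d * δ ^ 3 ≤ d * d ^ 3 := mul_le_mul_of_nonneg_left h4 hd
        _ = d ^ 4 := by ring
    have h2 : d ^ 2 ≤ d ^ 4 / δ ^ 2 := by
      rw [le_div_iff₀ (by positivity)]
      have h4 : δ ^ 2 ≤ d ^ 2 := pow_le_pow_left₀ hδ0.le hdδ'.le 2
      calc d ^ 2 * δ ^ 2 ≤ d ^ 2 * d ^ 2 := mul_le_mul_of_nonneg_left h4 (by positivity)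
        _ = d ^ 4 := by ring
    constructor
    · have h5 : d ^ 4 / δ ^ 3 ≤ ((9 / 2) / δ ^ 3 + (5 / 2) / δ) * d ^ 4 := by
        have h6 : d ^ 4 / δ ^ 3 = (1 / δ ^ 3) * d ^ 4 := by ring
        rw [h6]
        apply mul_le_mul_of_nonneg_right _ hd4
        have h7 : 0 ≤ 1 / δ ^ 3 := by positivity
        have h8 : 0 ≤ (5 / 2) / δ := by positivity
        have h9 : (9 / 2) / δ ^ 3 = (9 / 2) * (1 / δ ^ 3) := by ring
        rw [h9]; linarith
      linarith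
    · -- `B² d ≤ δ B⁴ + d²/(4δ)`
      have h5 : B ^ 2 * d ≤ δ * B ^ 4 + d ^ 2 / (4 * δ) := by
        have h6 : δ * B ^ 4 + d ^ 2 / (4 * δ) - B ^ 2 * d = (2 * δ * B ^ 2 - d) ^ 2 / (4 * δ) := by
          field_simp
          ring
        have h7 : 0 ≤ (2 * δ * B ^ 2 - d) ^ 2 / (4 * δ) := by positivity
        linarith
      have h6 : d ^ 2 / (4 * δ) ≤ d ^ 4 / δ ^ 3 := by
        have : d ^ 2 / (4 * δ) ≤ (d ^ 4 / δ ^ 2) / (4 * δ) :=
          div_le_div_of_nonneg_right h2 (by positivity)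
        have h8 : (d ^ 4 / δ ^ 2) / (4 * δ) = (d ^ 4 / δ ^ 3) / 4 := by
          field_simp
        have h9 : 0 ≤ d ^ 4 / δ ^ 3 := by positivity
        linarith
      have h7 : δ * B ^ 4 * 7 ≤ ε * B ^ 4 := by
        have : 7 * δ * B ^ 4 ≤ ε * B ^ 4 := mul_le_mul_of_nonneg_right hδε (by positivity)
        linarith
      have h8 : ((9 / 2) / δ ^ 3 + (5 / 2) / δ) * d ^ 4 =
          (9 / 2) * (d ^ 4 / δ ^ 3) + (5 / 2) * (d ^ 4 / δ) := by ring
      have h9 : 0 ≤ δ * B ^ 4 := by positivity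
      rw [h8]
      nlinarith

lemma vec_ineq (a b p : E2) : |‖a‖ ^ 2 * inner ℝ a p - ‖b‖ ^ 2 * inner ℝ b p| ≤
    ‖p‖ * ((9 / 2) * ‖b‖ ^ 2 * ‖a - b‖ + (5 / 2) * ‖a - b‖ ^ 3) := by
  set d := ‖a - b‖ with hd
  have h1 : ‖a‖ ^ 2 * inner ℝ a p - ‖b‖ ^ 2 * inner ℝ b p =
      inner ℝ (‖a‖ ^ 2 • (a - b) + (‖a‖ ^ 2 - ‖b‖ ^ 2) • b) p := by
    rw [inner_add_left, real_inner_smul_left, real_inner_smul_left, inner_sub_left]
    ring
  have h2 : ‖‖a‖ ^ 2 • (a - b) + (‖a‖ ^ 2 - ‖b‖ ^ 2) • b‖ ≤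
      ‖a‖ ^ 2 * d + (‖a‖ + ‖b‖) * d * ‖b‖ := by
    refine (norm_add_le _ _).trans ?_
    rw [norm_smul, norm_smul, Real.norm_eq_abs, Real.norm_eq_abs, abs_of_nonneg (sq_nonneg ‖a‖)]
    have h3 : |‖a‖ ^ 2 - ‖b‖ ^ 2| ≤ (‖a‖ + ‖b‖) * d := by
      have h4 : ‖a‖ ^ 2 - ‖b‖ ^ 2 = (‖a‖ + ‖b‖) * (‖a‖ - ‖b‖) := by ring
      rw [h4, abs_mul, abs_of_nonneg (by positivity)]
      exact mul_le_mul_of_nonneg_left (abs_norm_sub_norm_le a b) (by positivity)
    have := mul_le_mul_of_nonneg_right h3 (norm_nonneg b)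
    linarith
  have h3 : ‖a‖ ≤ ‖b‖ + d := by
    have : a = b + (a - b) := by abel
    calc ‖a‖ = ‖b + (a - b)‖ := by rw [← this]
      _ ≤ ‖b‖ + ‖a - b‖ := norm_add_le _ _
  have hd0 : 0 ≤ d := norm_nonneg _
  have hb0 : 0 ≤ ‖b‖ := norm_nonneg _
  have ha0 : 0 ≤ ‖a‖ := norm_nonneg _
  have h4 : ‖a‖ ^ 2 * d + (‖a‖ + ‖b‖) * d * ‖b‖ ≤
      (9 / 2) * ‖b‖ ^ 2 * d + (5 / 2) * d ^ 3 := by
    have h5 : ‖a‖ ^ 2 ≤ (‖b‖ + d) ^ 2 := pow_le_pow_left₀ ha0 h3 2
    have h6 : ‖a‖ ^ 2 * d ≤ (‖b‖ + d) ^ 2 * d := mul_le_mul_of_nonneg_right h5 hd0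
    have h7 : (‖a‖ + ‖b‖) * d * ‖b‖ ≤ (‖b‖ + d + ‖b‖) * d * ‖b‖ := by
      apply mul_le_mul_of_nonneg_right _ hb0
      apply mul_le_mul_of_nonneg_right _ hd0
      linarith
    have h8 : 0 ≤ d * (‖b‖ - d) ^ 2 := by positivity
    nlinarith
  rw [h1]
  calc |inner ℝ (‖a‖ ^ 2 • (a - b) + (‖a‖ ^ 2 - ‖b‖ ^ 2) • b) p|
      ≤ ‖‖a‖ ^ 2 • (a - b) + (‖a‖ ^ 2 - ‖b‖ ^ 2) • b‖ * ‖p‖ := abs_real_inner_le_norm _ _
    _ ≤ ((9 / 2) * ‖b‖ ^ 2 * d + (5 / 2) * d ^ 3) * ‖p‖ :=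
        mul_le_mul_of_nonneg_right (h2.trans h4) (norm_nonneg _)
    _ = _ := mul_comm _ _

/-! ### Gradients -/

lemma measurable_gradient (w : E2 → ℝ) : Measurable (gradient w) :=
  (InnerProductSpace.toDual ℝ E2).symm.continuous.measurable.comp (measurable_fderiv ℝ w)

lemma norm_gradient (w : E2 → ℝ) (x : E2) : ‖gradient w x‖ = ‖fderiv ℝ w x‖ := by
  unfold gradient
  exact (InnerProductSpace.toDual ℝ E2).symm.norm_map _

lemma gradient_off {w : E2 → ℝ} {x : E2} (hx : x ∉ tsupport w) : gradient w x = 0 := by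
  unfold gradient
  rw [fderiv_of_notMem_tsupport ℝ hx, map_zero]

lemma continuousOn_gradient {b : E2 → ℝ} {S : Set E2} (hS : IsOpen S) (hb : ContDiffOn ℝ 1 b S) :
    ContinuousOn (gradient b) S :=
  (InnerProductSpace.toDual ℝ E2).symm.continuous.comp_continuousOn
    (hb.continuousOn_fderiv_of_isOpen hS le_rfl)

lemma isOpen_D : IsOpen D := isOpen_lt continuous_const continuous_norm

/-- Locally Lipschitz functions of two locally Lipschitz functions. -/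
lemma locLip_comp {g : ℝ × ℝ → ℝ} (hg : ContDiff ℝ 1 g) {S : Set E2}
    {u v : E2 → ℝ} (hu : LocallyLipschitzOn S u) (hv : LocallyLipschitzOn S v) :
    LocallyLipschitzOn S (fun x => g (u x, v x)) := by
  intro x hx
  obtain ⟨K1, t1, ht1, h1⟩ := hu hx
  obtain ⟨K2, t2, ht2, h2⟩ := hv hx
  obtain ⟨K3, t3, ht3, h3⟩ := hg.locallyLipschitz (u x, v x)
  have hcont : ContinuousWithinAt (fun x => (u x, v x)) S x :=
    (hu.continuousOn x hx).prodMk (hv.continuousOn x hx)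
  have h4 : LipschitzOnWith (max K1 K2) (fun x => (u x, v x)) (t1 ∩ t2) :=
    (h1.mono inter_subset_left).prodMk (h2.mono inter_subset_right)
  refine ⟨K3 * max K1 K2, (t1 ∩ t2) ∩ ((fun x => (u x, v x)) ⁻¹' t3),
    inter_mem (inter_mem ht1 ht2) (hcont ht3), ?_⟩
  exact h3.comp (h4.mono inter_subset_left) (fun y hy => hy.2)

lemma locLip_of_contDiffOn {S : Set E2} (hS : IsOpen S) {b : E2 → ℝ} (hb : ContDiffOn ℝ 1 b S) :
    LocallyLipschitzOn S b := by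
  intro x hx
  obtain ⟨K, t, ht, h⟩ := (hb.contDiffAt (hS.mem_nhds hx)).exists_lipschitzOnWith
  exact ⟨K, t, mem_nhdsWithin_of_mem_nhds ht, h⟩

/-! ### The data -/

/-- The hypotheses of the packet. -/
structure Dat (b0 V : E2 → ℝ) (C0 : ℝ) (w : ℕ → E2 → ℝ) (wl : E2 → ℝ) (G : E2 → E2)
    (φ : E2 → ℝ) : Prop where
  base : Base b0 V C0
  adm : ∀ n, IsAdm (w n)
  cont : Continuous wl
  meas : AEStronglyMeasurable G volume
  g4 : Integrable (fun x => ‖G x‖ ^ 4)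
  unif : ∀ K : Set E2, IsCompact K → TendstoUniformlyOn w wl atTop K
  l4 : Tendsto (fun n => ∫ x, ‖gradient (w n) x - G x‖ ^ 4) atTop (𝓝 0)
  smooth : ContDiff ℝ (⊤ : ℕ∞) φ
  cs : HasCompactSupport φ
  sub : tsupport φ ⊆ D

section

variable {b0 V : E2 → ℝ} {C0 : ℝ} {w : ℕ → E2 → ℝ} {wl : E2 → ℝ} {G : E2 → E2} {φ : E2 → ℝ}

lemma pow4_add (a b : ℝ) : (a + b) ^ 4 ≤ 8 * (a ^ 4 + b ^ 4) := by
  nlinarith [sq_nonneg (a - b), sq_nonneg (a + b), sq_nonneg (a ^ 2 - b ^ 2),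
    mul_nonneg (sq_nonneg (a - b)) (sq_nonneg (a + b)),
    mul_nonneg (sq_nonneg (a - b)) (sq_nonneg (a - b))]

lemma Dat.hK (h : Dat b0 V C0 w wl G φ) : IsCompact (tsupport φ) := h.cs

lemma Dat.b0_cont (h : Dat b0 V C0 w wl G φ) : ContinuousOn b0 (tsupport φ) :=
  h.base.c1.continuousOn.mono h.sub

lemma Dat.gb_cont (h : Dat b0 V C0 w wl G φ) : ContinuousOn (gradient b0) (tsupport φ) :=
  (continuousOn_gradient isOpen_D h.base.c1).mono h.sub

lemma Dat.gb_bd (h : Dat b0 V C0 w wl G φ) :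
    ∃ B : ℝ, 0 ≤ B ∧ ∀ x ∈ tsupport φ, ‖gradient b0 x‖ ≤ B := by
  obtain ⟨B, hB⟩ := h.hK.exists_bound_of_continuousOn h.gb_cont
  exact ⟨|B|, abs_nonneg _, fun x hx => (hB x hx).trans (le_abs_self B)⟩

lemma Dat.w_cont (h : Dat b0 V C0 w wl G φ) (n : ℕ) : Continuous (w n) := by
  obtain ⟨K, hK⟩ := (h.adm n).1
  exact hK.continuous

lemma Dat.gw_bd (h : Dat b0 V C0 w wl G φ) (n : ℕ) :
    ∃ B : ℝ, 0 ≤ B ∧ ∀ x, ‖gradient (w n) x‖ ≤ B := by
  obtain ⟨K, hK⟩ := (h.adm n).1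
  refine ⟨K, K.2, fun x => ?_⟩
  rw [norm_gradient]
  exact norm_fderiv_le_of_lipschitz ℝ hK

lemma Dat.gphi_cont (h : Dat b0 V C0 w wl G φ) : Continuous (gradient φ) :=
  (InnerProductSpace.toDual ℝ E2).symm.continuous.comp (h.smooth.continuous_fderiv (by simp))

lemma Dat.gphi_bd (h : Dat b0 V C0 w wl G φ) : ∃ B : ℝ, 0 ≤ B ∧ ∀ x, ‖gradient φ x‖ ≤ B := by
  obtain ⟨K, hK⟩ := ContDiff.lipschitzWith_of_hasCompactSupport h.cs h.smooth (by simp)
  refine ⟨K, K.2, fun x => ?_⟩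
  rw [norm_gradient]
  exact norm_fderiv_le_of_lipschitz ℝ hK

lemma Dat.phi_bd (h : Dat b0 V C0 w wl G φ) : ∃ B : ℝ, 0 ≤ B ∧ ∀ x ∈ tsupport φ, |φ x| ≤ B := by
  obtain ⟨B, hB⟩ := h.hK.exists_bound_of_continuousOn h.smooth.continuous.continuousOn
  exact ⟨|B|, abs_nonneg _, fun x hx => (hB x hx).trans (le_abs_self B)⟩

lemma Dat.V_bd (h : Dat b0 V C0 w wl G φ) : ∀ x ∈ tsupport φ, |V x| ≤ |C0| := by
  intro x hx
  have h1 := h.base.vb x (h.sub hx)
  have h2 : 1 < ‖x‖ := h.sub hx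
  refine h1.trans ?_
  have h3 : 1 ≤ ‖x‖ ^ 4 := one_le_pow₀ h2.le
  rw [div_le_iff₀ (by positivity)]
  calc C0 ≤ |C0| * 1 := by rw [mul_one]; exact le_abs_self _
    _ ≤ |C0| * ‖x‖ ^ 4 := mul_le_mul_of_nonneg_left h3 (abs_nonneg _)

lemma Dat.el_cont (h : Dat b0 V C0 w wl G φ) :
    ContinuousOn (fun x => Real.exp (b0 x + wl x)) (tsupport φ) :=
  Real.continuous_exp.comp_continuousOn (h.b0_cont.add h.cont.continuousOn)

lemma Dat.en_cont (h : Dat b0 V C0 w wl G φ) (n : ℕ) :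
    ContinuousOn (fun x => Real.exp (b0 x + w n x)) (tsupport φ) :=
  Real.continuous_exp.comp_continuousOn (h.b0_cont.add (h.w_cont n).continuousOn)

lemma Dat.el_bd (h : Dat b0 V C0 w wl G φ) (k : ℕ) :
    ∃ M : ℝ, 1 ≤ M ∧ ∀ x ∈ tsupport φ, Real.exp (b0 x + wl x) ^ k ≤ M := by
  obtain ⟨B, hB⟩ := h.hK.exists_bound_of_continuousOn (h.el_cont.pow k)
  refine ⟨max 1 B, le_max_left _ _, fun x hx => ?_⟩
  have := hB x hx
  rw [Real.norm_eq_abs] at this
  exact ((le_abs_self _).trans this).trans (le_max_right _ _)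

/-- Uniform convergence of the exponentials. -/
lemma Dat.unif_exp (h : Dat b0 V C0 w wl G φ) (k : ℕ) {η : ℝ} (hη : 0 < η) :
    ∀ᶠ n in atTop, ∀ x ∈ tsupport φ,
      |Real.exp (b0 x + w n x) ^ k - Real.exp (b0 x + wl x) ^ k| ≤ η := by
  obtain ⟨M, hM1, hM⟩ := h.el_bd k
  have hu := Metric.tendstoUniformlyOn_iff.1 (h.unif _ h.hK)
    (min (1 / (k + 1)) (η / (2 * (k + 1) * M))) (by positivity)
  filter_upwards [hu] with n hn x hx
  have h1 := hn x hx
  rw [Real.dist_eq, abs_sub_comm] at h1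
  set s := w n x - wl x with hs
  have h2 : |s| ≤ 1 / (k + 1) := h1.le.trans (min_le_left _ _)
  have h3 : |s| ≤ η / (2 * (k + 1) * M) := h1.le.trans (min_le_right _ _)
  have hk : |(k : ℝ) * s| ≤ (k + 1) * |s| := by
    rw [abs_mul, abs_of_nonneg (Nat.cast_nonneg k)]
    have := abs_nonneg s
    nlinarith
  have h4 : |(k : ℝ) * s| ≤ 1 := by
    refine hk.trans ?_
    calc ((k : ℝ) + 1) * |s| ≤ (k + 1) * (1 / (k + 1)) :=
          mul_le_mul_of_nonneg_left h2 (by positivity)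
      _ = 1 := by field_simp
  have h5 := Real.abs_exp_sub_one_le h4
  have h6 : Real.exp (b0 x + w n x) ^ k - Real.exp (b0 x + wl x) ^ k =
      Real.exp (b0 x + wl x) ^ k * (Real.exp ((k : ℝ) * s) - 1) := by
    have h7 : Real.exp (b0 x + w n x) ^ k = Real.exp (b0 x + wl x) ^ k * Real.exp ((k : ℝ) * s) := by
      rw [← Real.exp_nat_mul, ← Real.exp_nat_mul, ← Real.exp_add]
      congr 1
      rw [hs]; ring
    rw [h7]; ring
  rw [h6, abs_mul, abs_of_nonneg (by positivity)]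
  calc Real.exp (b0 x + wl x) ^ k * |Real.exp ((k : ℝ) * s) - 1|
      ≤ M * (2 * ((k + 1) * (η / (2 * (k + 1) * M)))) := by
        apply mul_le_mul (hM x hx) _ (abs_nonneg _) (by positivity)
        refine h5.trans ?_
        apply mul_le_mul_of_nonneg_left _ (by norm_num)
        exact hk.trans (mul_le_mul_of_nonneg_left h3 (by positivity))
    _ = η := by field_simp

/-! ### Integrability -/

lemma Dat.gw4 (h : Dat b0 V C0 w wl G φ) (n : ℕ) : Integrable (fun x => ‖gradient (w n) x‖ ^ 4) := by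
  obtain ⟨B, hB0, hB⟩ := h.gw_bd n
  have hc : IsCompact (tsupport (w n)) := (h.adm n).2.1
  have hsub : Function.support (fun x => ‖gradient (w n) x‖ ^ 4) ⊆ tsupport (w n) := by
    intro x hx
    by_contra hx2
    apply hx
    simp [gradient_off hx2]
  rw [← integrableOn_iff_integrable_of_support_subset hsub]
  refine Measure.integrableOn_of_bounded (M := B ^ 4) hc.measure_lt_top.ne
    ((measurable_gradient _).norm.pow_const 4).aestronglyMeasurable
    (ae_of_all _ fun x => ?_)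
  rw [Real.norm_eq_abs, abs_of_nonneg (by positivity)]
  exact pow_le_pow_left₀ (norm_nonneg _) (hB x) 4

lemma Dat.d4 (h : Dat b0 V C0 w wl G φ) (n : ℕ) :
    Integrable (fun x => ‖gradient (w n) x - G x‖ ^ 4) := by
  refine Integrable.mono' (((h.gw4 n).add h.g4).const_mul 8)
    ((((measurable_gradient (w n)).aestronglyMeasurable.sub h.meas).norm.pow 4)) (ae_of_all _ fun x => ?_)
  rw [Real.norm_eq_abs, abs_of_nonneg (by positivity)]
  exact (pow_le_pow_left₀ (norm_nonneg _) (norm_sub_le _ _) 4).trans (pow4_add _ _)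

lemma Dat.d4K (h : Dat b0 V C0 w wl G φ) :
    Tendsto (fun n => ∫ x in tsupport φ, ‖gradient (w n) x - G x‖ ^ 4) atTop (𝓝 0) := by
  refine squeeze_zero (fun n => ?_) (fun n => ?_) h.l4
  · exact integral_nonneg fun x => by positivity
  · exact setIntegral_le_integral (h.d4 n) (ae_of_all _ fun x => by positivity)

lemma Dat.finK (h : Dat b0 V C0 w wl G φ) : IsFiniteMeasure (volume.restrict (tsupport φ)) :=
  ⟨by rw [Measure.restrict_apply_univ]; exact h.hK.measure_lt_top⟩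

lemma Dat.gb_meas (h : Dat b0 V C0 w wl G φ) :
    AEStronglyMeasurable (gradient b0) (volume.restrict (tsupport φ)) :=
  h.gb_cont.aestronglyMeasurable h.hK.measurableSet

lemma Dat.be_meas (h : Dat b0 V C0 w wl G φ) :
    AEStronglyMeasurable (fun x => gradient b0 x + G x) (volume.restrict (tsupport φ)) :=
  h.gb_meas.add h.meas.restrict

lemma Dat.bn_meas (h : Dat b0 V C0 w wl G φ) (n : ℕ) :
    AEStronglyMeasurable (fun x => gradient b0 x + gradient (w n) x)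
      (volume.restrict (tsupport φ)) :=
  h.gb_meas.add (measurable_gradient (w n)).aestronglyMeasurable

lemma Dat.h_int (h : Dat b0 V C0 w wl G φ) :
    Integrable (fun x => ‖gradient b0 x + G x‖ ^ 4 + 1) (volume.restrict (tsupport φ)) := by
  have := h.finK
  obtain ⟨B, hB0, hB⟩ := h.gb_bd
  refine Integrable.add ?_ (integrable_const _)
  have h1 : Integrable (fun x => 8 * (B ^ 4 + ‖G x‖ ^ 4)) (volume.restrict (tsupport φ)) :=
    ((integrable_const _).add h.g4.restrict).const_mul 8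
  refine h1.mono' (h.be_meas.norm.pow 4) ?_
  rw [ae_restrict_iff' h.hK.measurableSet]
  refine ae_of_all _ fun x hx => ?_
  rw [Real.norm_eq_abs, abs_of_nonneg (by positivity)]
  have h2 : ‖gradient b0 x + G x‖ ≤ B + ‖G x‖ := (norm_add_le _ _).trans (by linarith [hB x hx])
  exact (pow_le_pow_left₀ (norm_nonneg _) h2 4).trans (pow4_add _ _)

end

end Pool.Agent.Helper50.PL
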