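import Pool.Agent.Helper50.PL.Pass

/-!
# Passing to the limit in the weak formulation: conclusion
-/

set_option autoImplicit false

open MeasureTheory Set Filter Topology

namespace Pool.Agent.Helper50.PL

open Pool.Agent.Helper82.PL

variable {b0 V : E2 → ℝ} {C0 : ℝ} {w : ℕ → E2 → ℝ} {wl : E2 → ℝ} {G : E2 → E2} {φ : E2 → ℝ}

lemma one_add_pow {B : ℝ} (hB : 0 ≤ B) : B ≤ B ^ 4 + 1 ∧ B ^ 3 ≤ B ^ 4 + 1 := by
  constructor
  · nlinarith [sq_nonneg (B - 1), sq_nonneg (B ^ 2 - 1), sq_nonneg B]
  · rcases le_total B 1 with h | h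
    · have : B ^ 3 ≤ 1 := pow_le_one₀ hB h
      have : 0 ≤ B ^ 4 := by positivity
      linarith
    · have : B ^ 3 ≤ B ^ 4 := pow_le_pow_right₀ h (by norm_num)
      linarith

/-- The vector valued terms: `F2`. -/
lemma Dat.lim2 (h : Dat b0 V C0 w wl G φ) :
    Tendsto (fun n => ∫ x in tsupport φ,
      φ x • (Real.exp (b0 x + w n x) • (gradient b0 x + gradient (w n) x))) atTop
      (𝓝 (∫ x in tsupport φ, φ x • (Real.exp (b0 x + wl x) • (gradient b0 x + G x)))) := by
  have hfin := h.finK
  obtain ⟨Q, hQ0, hQ⟩ := h.phi_bd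
  obtain ⟨M, hM1, hM⟩ := h.el_bd 1
  simp only [pow_one] at hM
  have hphi : AEStronglyMeasurable φ (volume.restrict (tsupport φ)) :=
    h.smooth.continuous.aestronglyMeasurable
  have hel := h.el_cont.aestronglyMeasurable (μ := volume) h.hK.measurableSet
  have hen := fun n => (h.en_cont n).aestronglyMeasurable (μ := volume) h.hK.measurableSet
  refine tendsto_int (h := fun x => ‖gradient b0 x + G x‖ ^ 4 + 1)
    (d := fun n x => ‖gradient (w n) x - G x‖ ^ 4) ?_ ?_ h.h_int (fun n => (h.d4 n).restrict) h.d4K ?_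
  · refine (h.h_int.const_mul (Q * M)).mono' (hphi.smul (hel.smul h.be_meas)) ?_
    rw [ae_restrict_iff' h.hK.measurableSet]
    refine ae_of_all _ fun x hx => ?_
    rw [norm_smul, norm_smul, Real.norm_eq_abs, Real.norm_eq_abs, abs_of_nonneg (Real.exp_pos _).le,
      ← mul_assoc]
    apply mul_le_mul _ (one_add_pow (norm_nonneg _)).1 (norm_nonneg _) (by positivity)
    exact mul_le_mul (hQ x hx) (hM x hx) (Real.exp_pos _).le hQ0
  · intro n
    exact hphi.smul ((hen n).smul (h.bn_meas n))
  · intro ε hε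
    obtain ⟨C, hC0, hC⟩ := young (ε / (2 * (Q + 1) * (M + 1))) (by positivity)
    refine ⟨Q * (M + 1) * C, ?_⟩
    filter_upwards [h.unif_exp 1 (η := min 1 (ε / (2 * (Q + 1)))) (by positivity)] with n hn
    rw [ae_restrict_iff' h.hK.measurableSet]
    refine ae_of_all _ fun x hx => ?_
    have h1 := hn x hx
    simp only [pow_one] at h1
    have h2 := h1.trans (min_le_left _ _)
    have h3 := h1.trans (min_le_right _ _)
    set E := Real.exp (b0 x + w n x) with hE
    set E' := Real.exp (b0 x + wl x) with hE'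
    have hE0 : 0 < E := Real.exp_pos _
    have hEM : E ≤ M + 1 := by
      have := (abs_le.1 h2).2
      have := hM x hx
      linarith
    set b := gradient b0 x + G x with hb
    set d := ‖gradient (w n) x - G x‖ with hd
    have hd0 : 0 ≤ d := norm_nonneg _
    have e1 : φ x • (E • (gradient b0 x + gradient (w n) x)) - φ x • (E' • b) =
        φ x • (E • (gradient (w n) x - G x)) + φ x • ((E - E') • b) := by
      rw [hb]; module
    have h4 := (hC 0 d le_rfl hd0).1
    have h5 := (one_add_pow (norm_nonneg b)).1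
    rw [e1]
    calc ‖φ x • (E • (gradient (w n) x - G x)) + φ x • ((E - E') • b)‖
        ≤ |φ x| * (E * d) + |φ x| * (|E - E'| * ‖b‖) := by
          refine (norm_add_le _ _).trans (le_of_eq ?_)
          rw [norm_smul, norm_smul, norm_smul, norm_smul, Real.norm_eq_abs, Real.norm_eq_abs,
            Real.norm_eq_abs, abs_of_pos hE0]
      _ ≤ Q * ((M + 1) * (ε / (2 * (Q + 1) * (M + 1)) + C * d ^ 4)) +
          Q * (ε / (2 * (Q + 1)) * (‖b‖ ^ 4 + 1)) := by
          apply add_le_add
          · apply mul_le_mul (hQ x hx) _ (by positivity) hQ0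
            exact mul_le_mul hEM h4 hd0 (by positivity)
          · apply mul_le_mul (hQ x hx) _ (by positivity) hQ0
            exact mul_le_mul h3 h5 (norm_nonneg _) (by positivity)
      _ ≤ ε * (‖b‖ ^ 4 + 1) + Q * (M + 1) * C * d ^ 4 := by
          have h6 : Q * ((M + 1) * (ε / (2 * (Q + 1) * (M + 1)))) = Q / (Q + 1) * (ε / 2) := by
            field_simp
          have h7 : Q * (ε / (2 * (Q + 1)) * (‖b‖ ^ 4 + 1)) =
              Q / (Q + 1) * (ε / 2 * (‖b‖ ^ 4 + 1)) := by
            field_simp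
          have h8 : Q / (Q + 1) ≤ 1 := by
            rw [div_le_one (by positivity)]; linarith
          have h9 : 0 ≤ ‖b‖ ^ 4 := by positivity
          have h10 : Q / (Q + 1) * (ε / 2) ≤ 1 * (ε / 2) :=
            mul_le_mul_of_nonneg_right h8 (by positivity)
          have h11 : Q / (Q + 1) * (ε / 2 * (‖b‖ ^ 4 + 1)) ≤ 1 * (ε / 2 * (‖b‖ ^ 4 + 1)) :=
            mul_le_mul_of_nonneg_right h8 (by positivity)
          have h12 : 0 ≤ ε / 2 * ‖b‖ ^ 4 := by positivity
          rw [mul_add (M + 1), mul_add Q, h6, h7]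
          linarith

/-- The vector valued terms: `F3`. -/
lemma Dat.lim3 (h : Dat b0 V C0 w wl G φ) :
    Tendsto (fun n => ∫ x in tsupport φ, Real.exp (b0 x + w n x) • gradient φ x) atTop
      (𝓝 (∫ x in tsupport φ, Real.exp (b0 x + wl x) • gradient φ x)) := by
  have hfin := h.finK
  obtain ⟨P, hP0, hP⟩ := h.gphi_bd
  obtain ⟨M, hM1, hM⟩ := h.el_bd 1
  simp only [pow_one] at hM
  have hphi : AEStronglyMeasurable (gradient φ) (volume.restrict (tsupport φ)) :=
    h.gphi_cont.aestronglyMeasurable
  have hel := h.el_cont.aestronglyMeasurable (μ := volume) h.hK.measurableSet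
  have hen := fun n => (h.en_cont n).aestronglyMeasurable (μ := volume) h.hK.measurableSet
  refine tendsto_int (h := fun x => ‖gradient b0 x + G x‖ ^ 4 + 1)
    (d := fun n x => ‖gradient (w n) x - G x‖ ^ 4) ?_ ?_ h.h_int (fun n => (h.d4 n).restrict) h.d4K ?_
  · refine (integrable_const (M * P)).mono' (hel.smul hphi) ?_
    rw [ae_restrict_iff' h.hK.measurableSet]
    refine ae_of_all _ fun x hx => ?_
    rw [norm_smul, Real.norm_eq_abs, abs_of_nonneg (Real.exp_pos _).le]
    exact mul_le_mul (hM x hx) (hP x) (norm_nonneg _) (by positivity)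
  · intro n
    exact (hen n).smul hphi
  · intro ε hε
    refine ⟨0, ?_⟩
    filter_upwards [h.unif_exp 1 (η := ε / (P + 1)) (by positivity)] with n hn
    rw [ae_restrict_iff' h.hK.measurableSet]
    refine ae_of_all _ fun x hx => ?_
    have h1 := hn x hx
    simp only [pow_one] at h1
    rw [← sub_smul, norm_smul, Real.norm_eq_abs, zero_mul, add_zero]
    have h2 : |Real.exp (b0 x + w n x) - Real.exp (b0 x + wl x)| * ‖gradient φ x‖ ≤
        ε / (P + 1) * (P + 1) :=
      mul_le_mul h1 ((hP x).trans (by linarith)) (norm_nonneg _) (by positivity)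
    have h3 : ε / (P + 1) * (P + 1) = ε := by field_simp
    have h4 : 0 ≤ ε * ‖gradient b0 x + G x‖ ^ 4 := by positivity
    linarith

/-- The scalar term. -/
lemma Dat.lim1 (h : Dat b0 V C0 w wl G φ) :
    Tendsto (fun n => ∫ x in tsupport φ, (Real.exp (b0 x + w n x)) ^ 3 *
      (‖gradient b0 x + gradient (w n) x‖ ^ 2 *
        inner ℝ (gradient b0 x + gradient (w n) x) (gradient φ x) + V x * φ x)) atTop
      (𝓝 (∫ x in tsupport φ, (Real.exp (b0 x + wl x)) ^ 3 *
      (‖gradient b0 x + G x‖ ^ 2 *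
        inner ℝ (gradient b0 x + G x) (gradient φ x) + V x * φ x))) := by
  have hfin := h.finK
  obtain ⟨Q, hQ0, hQ⟩ := h.phi_bd
  obtain ⟨P, hP0, hP⟩ := h.gphi_bd
  obtain ⟨M, hM1, hM⟩ := h.el_bd 3
  have hphi : AEStronglyMeasurable φ (volume.restrict (tsupport φ)) :=
    h.smooth.continuous.aestronglyMeasurable
  have hgphi : AEStronglyMeasurable (gradient φ) (volume.restrict (tsupport φ)) :=
    h.gphi_cont.aestronglyMeasurable
  have hV : AEStronglyMeasurable V (volume.restrict (tsupport φ)) :=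
    h.base.vm.aestronglyMeasurable
  have hel := h.el_cont.aestronglyMeasurable (μ := volume) h.hK.measurableSet
  have hen := fun n => (h.en_cont n).aestronglyMeasurable (μ := volume) h.hK.measurableSet
  -- bound for the bracket
  have hbr : ∀ x ∈ tsupport φ, |‖gradient b0 x + G x‖ ^ 2 *
      inner ℝ (gradient b0 x + G x) (gradient φ x) + V x * φ x| ≤
      (P + |C0| * Q) * (‖gradient b0 x + G x‖ ^ 4 + 1) := by
    intro x hx
    set b := gradient b0 x + G x with hb
    have h1 : |‖b‖ ^ 2 * inner ℝ b (gradient φ x)| ≤ P * (‖b‖ ^ 4 + 1) := by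
      rw [abs_mul, abs_of_nonneg (by positivity)]
      calc ‖b‖ ^ 2 * |inner ℝ b (gradient φ x)| ≤ ‖b‖ ^ 2 * (‖b‖ * P) := by
            apply mul_le_mul_of_nonneg_left _ (by positivity)
            exact (abs_real_inner_le_norm _ _).trans
              (mul_le_mul_of_nonneg_left (hP x) (norm_nonneg _))
        _ = P * ‖b‖ ^ 3 := by ring
        _ ≤ P * (‖b‖ ^ 4 + 1) :=
            mul_le_mul_of_nonneg_left (one_add_pow (norm_nonneg _)).2 hP0
    have h2 : |V x * φ x| ≤ |C0| * Q * (‖b‖ ^ 4 + 1) := by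
      rw [abs_mul]
      calc |V x| * |φ x| ≤ |C0| * Q :=
            mul_le_mul (h.V_bd x hx) (hQ x hx) (abs_nonneg _) (abs_nonneg _)
        _ ≤ |C0| * Q * (‖b‖ ^ 4 + 1) := by
            have h3 : 0 ≤ |C0| * Q := by positivity
            have h4 : 0 ≤ ‖b‖ ^ 4 := by positivity
            nlinarith
    calc _ ≤ |‖b‖ ^ 2 * inner ℝ b (gradient φ x)| + |V x * φ x| := abs_add_le _ _
      _ ≤ _ := by rw [add_mul]; exact add_le_add h1 h2
  have hm1 : AEStronglyMeasurable (fun x => ‖gradient b0 x + G x‖ ^ 2 *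
      inner ℝ (gradient b0 x + G x) (gradient φ x) + V x * φ x)
      (volume.restrict (tsupport φ)) :=
    ((h.be_meas.norm.pow 2).mul (h.be_meas.inner hgphi)).add (hV.mul hphi)
  refine tendsto_int (h := fun x => ‖gradient b0 x + G x‖ ^ 4 + 1)
    (d := fun n x => ‖gradient (w n) x - G x‖ ^ 4) ?_ ?_ h.h_int (fun n => (h.d4 n).restrict) h.d4K ?_
  · refine (h.h_int.const_mul (M * (P + |C0| * Q))).mono' ((hel.pow 3).mul hm1) ?_
    rw [ae_restrict_iff' h.hK.measurableSet]
    refine ae_of_all _ fun x hx => ?_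
    rw [Real.norm_eq_abs, abs_mul, abs_of_nonneg (by positivity), mul_assoc]
    exact mul_le_mul (hM x hx) (hbr x hx) (abs_nonneg _) (by positivity)
  · intro n
    exact ((hen n).pow 3).mul ((((h.bn_meas n).norm.pow 2).mul ((h.bn_meas n).inner hgphi)).add
      (hV.mul hphi))
  · intro ε hε
    obtain ⟨C, hC0, hC⟩ := young (ε / (2 * (P + 1) * (M + 1))) (by positivity)
    refine ⟨(M + 1) * P * C, ?_⟩
    filter_upwards [h.unif_exp 3 (η := min 1 (ε / (2 * (P + |C0| * Q + 1)))) (by positivity)]
      with n hn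
    rw [ae_restrict_iff' h.hK.measurableSet]
    refine ae_of_all _ fun x hx => ?_
    have h1 := hn x hx
    have h2 := h1.trans (min_le_left _ _)
    have h3 := h1.trans (min_le_right _ _)
    set E := Real.exp (b0 x + w n x) ^ 3 with hE
    set E' := Real.exp (b0 x + wl x) ^ 3 with hE'
    have hE0 : 0 < E := by positivity
    have hEM : E ≤ M + 1 := by
      have := (abs_le.1 h2).2
      have := hM x hx
      linarith
    set b := gradient b0 x + G x with hb
    set a := gradient b0 x + gradient (w n) x with ha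
    have hab : a - b = gradient (w n) x - G x := by rw [ha, hb]; abel
    have h4 := vec_ineq a b (gradient φ x)
    rw [hab] at h4
    set d := ‖gradient (w n) x - G x‖ with hd
    have hd0 : 0 ≤ d := norm_nonneg _
    have h5 := (hC ‖b‖ d (norm_nonneg _) hd0).2
    have e1 : E * (‖a‖ ^ 2 * inner ℝ a (gradient φ x) + V x * φ x) -
        E' * (‖b‖ ^ 2 * inner ℝ b (gradient φ x) + V x * φ x) =
        E * (‖a‖ ^ 2 * inner ℝ a (gradient φ x) - ‖b‖ ^ 2 * inner ℝ b (gradient φ x)) +
        (E - E') * (‖b‖ ^ 2 * inner ℝ b (gradient φ x) + V x * φ x) := by ring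
    rw [e1, Real.norm_eq_abs]
    calc |E * (‖a‖ ^ 2 * inner ℝ a (gradient φ x) - ‖b‖ ^ 2 * inner ℝ b (gradient φ x)) +
        (E - E') * (‖b‖ ^ 2 * inner ℝ b (gradient φ x) + V x * φ x)|
        ≤ E * |‖a‖ ^ 2 * inner ℝ a (gradient φ x) - ‖b‖ ^ 2 * inner ℝ b (gradient φ x)| +
          |E - E'| * |‖b‖ ^ 2 * inner ℝ b (gradient φ x) + V x * φ x| := by
          refine (abs_add_le _ _).trans (le_of_eq ?_)
          rw [abs_mul, abs_mul, abs_of_pos hE0]
      _ ≤ (M + 1) * (P * (ε / (2 * (P + 1) * (M + 1)) * (‖b‖ ^ 4 + 1) + C * d ^ 4)) +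
          ε / (2 * (P + |C0| * Q + 1)) * ((P + |C0| * Q) * (‖b‖ ^ 4 + 1)) := by
          apply add_le_add
          · apply mul_le_mul hEM _ (abs_nonneg _) (by positivity)
            refine h4.trans ?_
            apply mul_le_mul (hP x) h5 (by positivity) hP0
          · exact mul_le_mul h3 (hbr x hx) (abs_nonneg _) (by positivity)
      _ ≤ ε * (‖b‖ ^ 4 + 1) + (M + 1) * P * C * d ^ 4 := by
          have h6 : (M + 1) * (P * (ε / (2 * (P + 1) * (M + 1)) * (‖b‖ ^ 4 + 1))) =
              P / (P + 1) * (ε / 2 * (‖b‖ ^ 4 + 1)) := by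
            field_simp
          set R := P + |C0| * Q with hR
          have hR0 : 0 ≤ R := by positivity
          have h7 : ε / (2 * (R + 1)) * (R * (‖b‖ ^ 4 + 1)) =
              R / (R + 1) * (ε / 2 * (‖b‖ ^ 4 + 1)) := by
            field_simp
          have h8 : P / (P + 1) ≤ 1 := by
            rw [div_le_one (by positivity)]; linarith
          have h8' : R / (R + 1) ≤ 1 := by
            rw [div_le_one (by positivity)]; linarith
          have h10 : P / (P + 1) * (ε / 2 * (‖b‖ ^ 4 + 1)) ≤ 1 * (ε / 2 * (‖b‖ ^ 4 + 1)) :=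
            mul_le_mul_of_nonneg_right h8 (by positivity)
          have h11 : R / (R + 1) * (ε / 2 * (‖b‖ ^ 4 + 1)) ≤ 1 * (ε / 2 * (‖b‖ ^ 4 + 1)) :=
            mul_le_mul_of_nonneg_right h8' (by positivity)
          rw [mul_add P, mul_add (M + 1), h6, h7]
          linarith

/-- The identity before the limit. -/
lemma Dat.ibp (h : Dat b0 V C0 w wl G φ) (hI : stmtIBP) (hE : stmtExt) (n : ℕ) :
    ∫ x in tsupport φ, Real.exp (b0 x + w n x) • gradient φ x =
      - ∫ x in tsupport φ,
        φ x • (Real.exp (b0 x + w n x) • (gradient b0 x + gradient (w n) x)) := by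
  have hfin := h.finK
  obtain ⟨Kw, hKw⟩ := (h.adm n).1
  obtain ⟨Kp, hKp⟩ := ContDiff.lipschitzWith_of_hasCompactSupport h.cs h.smooth (by simp)
  set ζ : E2 → ℝ := fun x => Real.exp (b0 x + w n x) * φ x with hζ
  have hoff : ∀ x, x ∉ tsupport φ → ζ x = 0 := by
    intro x hx
    simp only [hζ]
    rw [image_eq_zero_of_notMem_tsupport hx, mul_zero]
  have hsub : tsupport ζ ⊆ tsupport φ := by
    apply closure_minimal _ (isClosed_tsupport φ)
    intro x hx
    by_contra h2
    exact hx (hoff x h2)
  -- `ζ` is Lipschitz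
  have hloc : LocallyLipschitzOn D ζ := by
    have h1 : LocallyLipschitzOn D (fun x => b0 x + w n x) :=
      locLip_comp (g := fun q => q.1 + q.2) (contDiff_fst.add contDiff_snd)
        (locLip_of_contDiffOn isOpen_D h.base.c1) hKw.locallyLipschitz.locallyLipschitzOn
    exact locLip_comp (g := fun q => Real.exp q.1 * q.2)
      ((Real.contDiff_exp.comp contDiff_fst).mul contDiff_snd) h1
      hKp.locallyLipschitz.locallyLipschitzOn
  have hlip := hE D (tsupport φ) ζ isOpen_D h.hK h.sub hoff hloc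
  have hcs : HasCompactSupport ζ := h.hK.of_isClosed_subset (isClosed_tsupport ζ) hsub
  -- gradient of `ζ`
  have hgrad : ∀ᵐ x, gradient ζ x = φ x • (Real.exp (b0 x + w n x) •
      (gradient b0 x + gradient (w n) x)) + Real.exp (b0 x + w n x) • gradient φ x := by
    filter_upwards [hKw.ae_differentiableAt (μ := volume)] with x hx
    by_cases hxs : x ∈ tsupport φ
    · have hb : HasFDerivAt b0 (fderiv ℝ b0 x) x :=
        ((h.base.c1.contDiffAt (isOpen_D.mem_nhds (h.sub hxs))).differentiableAt (by simp)).hasFDerivAt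
      have hp : HasFDerivAt φ (fderiv ℝ φ x) x :=
        (h.smooth.differentiable (by simp) x).hasFDerivAt
      have h1 := ((hb.add hx.hasFDerivAt).exp).mul hp
      have h2 : fderiv ℝ ζ x = Real.exp (b0 x + w n x) • fderiv ℝ φ x +
          φ x • (Real.exp (b0 x + w n x) • (fderiv ℝ b0 x + fderiv ℝ (w n) x)) := h1.fderiv
      unfold gradient
      rw [h2]
      simp only [map_add, map_smul]
      exact add_comm _ _
    · rw [gradient_off (fun h3 => hxs (hsub h3)), gradient_off hxs,
        image_eq_zero_of_notMem_tsupport hxs]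
      simp
  -- integrability
  obtain ⟨Q, hQ0, hQ⟩ := h.phi_bd
  obtain ⟨P, hP0, hP⟩ := h.gphi_bd
  obtain ⟨B, hB0, hB⟩ := h.gb_bd
  obtain ⟨B', hB0', hB'⟩ := h.gw_bd n
  obtain ⟨M, hM⟩ := h.hK.exists_bound_of_continuousOn (h.en_cont n)
  have hphi : AEStronglyMeasurable φ (volume.restrict (tsupport φ)) :=
    h.smooth.continuous.aestronglyMeasurable
  have hgphi : AEStronglyMeasurable (gradient φ) (volume.restrict (tsupport φ)) :=
    h.gphi_cont.aestronglyMeasurable
  have hen := (h.en_cont n).aestronglyMeasurable (μ := volume) h.hK.measurableSet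
  have hM0 : 0 ≤ |M| := abs_nonneg _
  have i2 : Integrable (fun x => φ x • (Real.exp (b0 x + w n x) •
      (gradient b0 x + gradient (w n) x))) (volume.restrict (tsupport φ)) := by
    refine Integrable.of_bound (hphi.smul (hen.smul (h.bn_meas n))) (Q * (|M| * (B + B'))) ?_
    rw [ae_restrict_iff' h.hK.measurableSet]
    refine ae_of_all _ fun x hx => ?_
    rw [norm_smul, norm_smul]
    apply mul_le_mul (hQ x hx) _ (by positivity) hQ0
    apply mul_le_mul ((hM x hx).trans (le_abs_self M)) _ (norm_nonneg _) hM0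
    exact (norm_add_le _ _).trans (add_le_add (hB x hx) (hB' x))
  have i3 : Integrable (fun x => Real.exp (b0 x + w n x) • gradient φ x)
      (volume.restrict (tsupport φ)) := by
    refine Integrable.of_bound (hen.smul hgphi) (|M| * P) ?_
    rw [ae_restrict_iff' h.hK.measurableSet]
    refine ae_of_all _ fun x hx => ?_
    rw [norm_smul]
    exact mul_le_mul ((hM x hx).trans (le_abs_self M)) (hP x) (norm_nonneg _) hM0
  -- testing with constant fields
  have hc : ∀ c : E2, inner ℝ c (∫ x in tsupport φ, (φ x • (Real.exp (b0 x + w n x) •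
      (gradient b0 x + gradient (w n) x)) + Real.exp (b0 x + w n x) • gradient φ x)) = 0 := by
    intro c
    obtain ⟨_, _, h1⟩ := hI D isOpen_D (fun _ => c) contDiffOn_const ζ hlip hcs
      (hsub.trans h.sub)
    have h2 : ∀ x, dv (fun _ : E2 => c) x = 0 := by
      intro x
      unfold dv
      simp
    simp only [h2, zero_mul, integral_zero, neg_zero] at h1
    have i23 : Integrable (fun x => φ x • (Real.exp (b0 x + w n x) •
      (gradient b0 x + gradient (w n) x)) + Real.exp (b0 x + w n x) • gradient φ x)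
      (volume.restrict (tsupport φ)) := i2.add i3
    rw [← integral_inner i23]
    have h3 : ∫ x in tsupport φ, inner ℝ c (gradient ζ x) = ∫ x, inner ℝ c (gradient ζ x) := by
      apply setIntegral_eq_integral_of_forall_compl_eq_zero
      intro x hx
      rw [gradient_off (fun h3 => hx (hsub h3)), inner_zero_right]
    rw [← h1, ← h3]
    apply integral_congr_ae
    filter_upwards [ae_restrict_of_ae hgrad] with x hx
    rw [hx]
  have h0 := inner_self_eq_zero.1 (hc _)
  rw [integral_add i2 i3] at h0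
  rw [eq_neg_iff_add_eq_zero, add_comm]
  exact h0

theorem pass_ok (hI : stmtIBP) (hE : stmtExt) : stmtPass := by
  intro b0 V C0 hB w hw wl G hwl hG hG4 hunif hL4 φ hφ hφc hφD
  have h : Dat b0 V C0 w wl G φ := ⟨hB, hw, hwl, hG, hG4, hunif, hL4, hφ, hφc, hφD⟩
  have z1 : ∀ x, x ∉ tsupport φ → φ x = 0 := fun x hx => image_eq_zero_of_notMem_tsupport hx
  have z2 : ∀ x, x ∉ tsupport φ → gradient φ x = 0 := fun x hx => gradient_off hx
  constructor
  · have h1 := h.lim1
    have e1 : ∀ n, ∫ x in tsupport φ, (Real.exp (b0 x + w n x)) ^ 3 *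
      (‖gradient b0 x + gradient (w n) x‖ ^ 2 *
        inner ℝ (gradient b0 x + gradient (w n) x) (gradient φ x) + V x * φ x) =
        ∫ x, (Real.exp (b0 x + w n x)) ^ 3 *
      (‖gradient b0 x + gradient (w n) x‖ ^ 2 *
        inner ℝ (gradient b0 x + gradient (w n) x) (gradient φ x) + V x * φ x) := by
      intro n
      apply setIntegral_eq_integral_of_forall_compl_eq_zero
      intro x hx
      rw [z1 x hx, z2 x hx, inner_zero_right]
      ring
    have e2 : ∫ x in tsupport φ, (Real.exp (b0 x + wl x)) ^ 3 *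
      (‖gradient b0 x + G x‖ ^ 2 *
        inner ℝ (gradient b0 x + G x) (gradient φ x) + V x * φ x) =
        ∫ x, (Real.exp (b0 x + wl x)) ^ 3 *
      (‖gradient b0 x + G x‖ ^ 2 *
        inner ℝ (gradient b0 x + G x) (gradient φ x) + V x * φ x) := by
      apply setIntegral_eq_integral_of_forall_compl_eq_zero
      intro x hx
      rw [z1 x hx, z2 x hx, inner_zero_right]
      ring
    simp only [e1] at h1
    rw [e2] at h1
    exact h1
  · have h2 := h.lim2.neg
    have h3 := h.lim3
    simp only [h.ibp hI hE] at h3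
    have h4 := tendsto_nhds_unique h3 h2
    have e1 : ∫ x in tsupport φ, Real.exp (b0 x + wl x) • gradient φ x =
        ∫ x, Real.exp (b0 x + wl x) • gradient φ x := by
      apply setIntegral_eq_integral_of_forall_compl_eq_zero
      intro x hx
      rw [z2 x hx, smul_zero]
    have e2 : ∫ x in tsupport φ, φ x • (Real.exp (b0 x + wl x) • (gradient b0 x + G x)) =
        ∫ x, φ x • (Real.exp (b0 x + wl x) • (gradient b0 x + G x)) := by
      apply setIntegral_eq_integral_of_forall_compl_eq_zero
      intro x hx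
      rw [z1 x hx, zero_smul]
    rw [← e1, ← e2]
    exact h4

end Pool.Agent.Helper50.PL
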